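import Mathlib

set_option autoImplicit false

/-! A total normal cone on a group gives a bi-invariant linear order; sign of power series. -/

namespace Pool.Agent.H177R2.WA

/-- a strict positive cone -/
structure Cone (G : Type*) [Group G] where
  pos : G → Prop
  not_one : ¬ pos 1
  mul : ∀ a b, pos a → pos b → pos (a * b)
  conj : ∀ a g, pos a → pos (g⁻¹ * a * g)
  tri : ∀ a, a = 1 ∨ pos a ∨ pos a⁻¹

namespace Cone
variable {G : Type*} [Group G] (P : Cone G)

open Classical in
@[reducible] noncomputable def linearOrder : LinearOrder G where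
  le a b := a = b ∨ P.pos (a⁻¹ * b)
  lt a b := (a = b ∨ P.pos (a⁻¹ * b)) ∧ ¬ (b = a ∨ P.pos (b⁻¹ * a))
  lt_iff_le_not_ge _ _ := Iff.rfl
  le_refl a := Or.inl rfl
  le_trans a b c hab hbc := by
    rcases hab with rfl | hab
    · exact hbc
    rcases hbc with rfl | hbc
    · exact Or.inr hab
    right
    have := P.mul _ _ hab hbc
    simpa [mul_assoc] using this
  le_antisymm a b hab hba := by
    rcases hab with rfl | hab
    · rfl
    rcases hba with rfl | hba
    · rfl
    exfalso
    have := P.mul _ _ hab hba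
    apply P.not_one
    simpa [mul_assoc] using this
  le_total a b := by
    rcases P.tri (a⁻¹ * b) with h | h | h
    · left; left; exact (inv_mul_eq_one.mp h)
    · left; right; exact h
    · right; right; simpa using h
  toDecidableLE := fun _ _ => Classical.propDecidable _

theorem le_def {a b : G} : P.linearOrder.le a b ↔ (a = b ∨ P.pos (a⁻¹ * b)) := Iff.rfl

theorem left : @MulLeftMono G _ P.linearOrder.toLE :=
  @CovariantClass.mk G G (· * ·) P.linearOrder.toLE.le (by
    intro g x y h
    rcases h with rfl | h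
    · exact Or.inl rfl
    · right
      have e : (g * x)⁻¹ * (g * y) = x⁻¹ * y := by group
      change P.pos ((g * x)⁻¹ * (g * y))
      rwa [e])

theorem right : @MulRightMono G _ P.linearOrder.toLE :=
  @CovariantClass.mk G G (Function.swap (· * ·)) P.linearOrder.toLE.le (by
    intro g x y h
    rcases h with rfl | h
    · exact Or.inl rfl
    · right
      have e : (x * g)⁻¹ * (y * g) = g⁻¹ * (x⁻¹ * y) * g := by group
      change P.pos ((x * g)⁻¹ * (y * g))
      rw [e]
      exact P.conj _ _ h)

end Cone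

open PowerSeries in
/-- positivity of a power series: the lowest nonzero coefficient is positive -/
def PosS (F : PowerSeries ℤ) : Prop := ∃ k : ℕ, (∀ j < k, coeff j F = 0) ∧ 0 < coeff k F

theorem PosS_zero : ¬ PosS 0 := by
  rintro ⟨k, -, h⟩
  simp at h

theorem PosS_add {F G : PowerSeries ℤ} (hF : PosS F) (hG : PosS G) : PosS (F + G) := by
  obtain ⟨k, hk, hk'⟩ := hF
  obtain ⟨l, hl, hl'⟩ := hG
  rcases lt_trichotomy k l with h | h | h
  · refine ⟨k, fun j hj => ?_, ?_⟩
    · rw [map_add, hk j hj, hl j (hj.trans h)]; rfl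
    · rw [map_add, hl k h, add_zero]; exact hk'
  · subst h
    refine ⟨k, fun j hj => ?_, ?_⟩
    · rw [map_add, hk j hj, hl j hj]; rfl
    · rw [map_add]; exact add_pos hk' hl'
  · refine ⟨l, fun j hj => ?_, ?_⟩
    · rw [map_add, hl j hj, hk j (hj.trans h)]; rfl
    · rw [map_add, hk l h, zero_add]; exact hl'

theorem PosS_tri (F : PowerSeries ℤ) : F = 0 ∨ PosS F ∨ PosS (-F) := by
  classical
  by_cases hF : F = 0
  · exact Or.inl hF
  right
  have hex : ∃ n, PowerSeries.coeff n F ≠ 0 := by
    by_contra hcon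
    push Not at hcon
    exact hF (PowerSeries.ext (by simpa using hcon))
  have h1 := Nat.find_spec hex
  have h2 : ∀ j < Nat.find hex, PowerSeries.coeff j F = 0 := by
    intro j hj
    have := Nat.find_min hex hj
    simpa using this
  rcases lt_or_gt_of_ne h1 with h | h
  · right
    refine ⟨Nat.find hex, fun j hj => by rw [map_neg, h2 j hj, neg_zero], ?_⟩
    rw [map_neg]; linarith
  · left
    exact ⟨Nat.find hex, h2, h⟩

theorem PosS_mul {F V : PowerSeries ℤ} (hF : PosS F) (hV : PowerSeries.constantCoeff V = 1) :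
    PosS (V * F) := by
  obtain ⟨k, hk, hk'⟩ := hF
  obtain ⟨G, rfl⟩ := PowerSeries.X_pow_dvd_iff.mpr hk
  have e : V * (PowerSeries.X ^ k * G) = PowerSeries.X ^ k * (V * G) := by ring
  rw [e]
  refine ⟨k, PowerSeries.X_pow_dvd_iff.mp (Dvd.intro _ rfl), ?_⟩
  have h1 := PowerSeries.coeff_X_pow_mul G k 0
  have h2 := PowerSeries.coeff_X_pow_mul (V * G) k 0
  rw [zero_add] at h1 h2
  rw [h2, PowerSeries.coeff_zero_eq_constantCoeff_apply, map_mul, hV, one_mul]
  rw [h1, PowerSeries.coeff_zero_eq_constantCoeff_apply] at hk'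
  exact hk'

end Pool.Agent.H177R2.WA
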