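import Pool.Agent.H177R2.WA.GroupLemma

set_option autoImplicit false

open scoped commutatorElement

/-! Nilpotent groups with a total bi-invariant preorder. -/

namespace Pool.Agent.H177R2.WA

section
variable {N : Type*} [Group N] [Preorder N] [MulLeftMono N] [MulRightMono N]

theorem one_le_conj' {a : N} (ha : 1 ≤ a) (h : N) : 1 ≤ h⁻¹ * a * h := by
  have := mul_le_mul' (mul_le_mul' (le_refl h⁻¹) ha) (le_refl h)
  simpa using this

theorem pair_le (htot : ∀ x y : N, x ≤ y ∨ y ≤ x) {ζ x y : N} (hx : ζ ≤ x * x) (hy : ζ ≤ y * y) :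
    ζ ≤ x * y := by
  rcases htot x y with h | h
  · exact hx.trans (mul_le_mul' le_rfl h)
  · exact hy.trans (mul_le_mul' h le_rfl)

theorem caseW (htot : ∀ x y : N, x ≤ y ∨ y ≤ x) (a g ζ : N) (ha : 1 ≤ a)
    (hζ : ζ = (a⁻¹ * (g⁻¹ * a * g))⁻¹)
    (hq : ∀ h : N, ζ ≤ (h⁻¹ * ζ * h) * (h⁻¹ * ζ * h)) (k : ℕ) : ζ ^ k ≤ a := by
  have claim : ∀ k : ℕ, (g ^ (2 * k))⁻¹ * a * g ^ (2 * k) ≤ a * (ζ⁻¹) ^ k := by
    intro k
    induction k with
    | zero => simp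
    | succ k ih =>
      have e1 : (g ^ (2 * (k + 1)))⁻¹ * a * g ^ (2 * (k + 1)) =
          ((g ^ (2 * k))⁻¹ * a * g ^ (2 * k)) *
          (((g ^ (2 * k + 1))⁻¹ * ζ * g ^ (2 * k + 1)) * ((g ^ (2 * k))⁻¹ * ζ * g ^ (2 * k)))⁻¹ := by
        rw [hζ, show 2 * (k + 1) = 2 * k + 1 + 1 by ring, pow_succ' g (2 * k + 1), pow_succ' g (2 * k)]
        group
      have e2 : (((g ^ (2 * k + 1))⁻¹ * ζ * g ^ (2 * k + 1)) * ((g ^ (2 * k))⁻¹ * ζ * g ^ (2 * k)))⁻¹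
          ≤ ζ⁻¹ := inv_le_inv_iff.mpr (pair_le htot (hq _) (hq _))
      have e3 : a * (ζ⁻¹) ^ (k + 1) = a * (ζ⁻¹) ^ k * ζ⁻¹ := by rw [pow_succ, mul_assoc]
      rw [e1, e3]
      exact mul_le_mul' ih e2
  have h1 : (1 : N) ≤ a * (ζ⁻¹) ^ k := (one_le_conj' ha _).trans (claim k)
  have h2 := mul_le_mul' h1 (le_refl (ζ ^ k))
  simpa using h2

theorem thmW (htot : ∀ x y : N, x ≤ y ∨ y ≤ x) :
    ∀ n : ℕ, ∀ a ∈ Subgroup.upperCentralSeries N n, 1 ≤ a → ∀ (g : N) (k : ℕ),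
      (a⁻¹ * (g⁻¹ * a * g)) ^ k ≤ a ∧ ((a⁻¹ * (g⁻¹ * a * g))⁻¹) ^ k ≤ a := by
  intro n
  induction n with
  | zero =>
    intro a ha _ g k
    rw [Subgroup.upperCentralSeries_zero, Subgroup.mem_bot] at ha
    subst ha
    simp
  | succ n ih =>
    intro a ha ha1 g k
    have hmem : ∀ g : N, a⁻¹ * (g⁻¹ * a * g) ∈ Subgroup.upperCentralSeries N n := by
      intro g
      have := (Subgroup.mem_upperCentralSeries_succ_iff.mp (Subgroup.inv_mem _ ha)) g⁻¹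
      simpa [commutatorElement_def, mul_assoc] using this
    -- quadratic property for elements of the n-th term
    have hquad : ∀ ζ ∈ Subgroup.upperCentralSeries N n, 1 ≤ ζ → ∀ h : N,
        ζ ≤ (h⁻¹ * ζ * h) * (h⁻¹ * ζ * h) := by
      intro ζ hζ hζ1 h
      have hmem' : h⁻¹ * ζ * h ∈ Subgroup.upperCentralSeries N n := by
        have := (inferInstance : (Subgroup.upperCentralSeries N n).Normal).conj_mem ζ hζ h⁻¹
        simpa using this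
      have h1 := (ih (h⁻¹ * ζ * h) hmem' (one_le_conj' hζ1 h) h⁻¹ 1).1
      rw [pow_one] at h1
      have h2 := mul_le_mul' (le_refl (h⁻¹ * ζ * h)) h1
      have e : h⁻¹ * ζ * h * ((h⁻¹ * ζ * h)⁻¹ * ((h⁻¹)⁻¹ * (h⁻¹ * ζ * h) * h⁻¹)) = ζ := by group
      rwa [e] at h2
    -- the case z ≤ 1
    have key : ∀ g : N, a⁻¹ * (g⁻¹ * a * g) ≤ 1 → ∀ k : ℕ,
        ((a⁻¹ * (g⁻¹ * a * g))⁻¹) ^ k ≤ a := by
      intro g hz k
      refine caseW htot a g _ ha1 rfl ?_ k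
      exact hquad _ (Subgroup.inv_mem _ (hmem g)) (one_le_inv'.mpr hz)
    rcases htot (a⁻¹ * (g⁻¹ * a * g)) 1 with hz | hz
    · exact ⟨(pow_le_one' hz k).trans ha1, key g hz k⟩
    · -- z ≥ 1: use g⁻¹
      have hz' : a⁻¹ * (g⁻¹⁻¹ * a * g⁻¹) ≤ 1 := by
        have e : a⁻¹ * (g⁻¹⁻¹ * a * g⁻¹) = ((g⁻¹)⁻¹ * (a⁻¹ * (g⁻¹ * a * g)) * g⁻¹)⁻¹ := by group
        rw [e]
        exact inv_le_one'.mpr (one_le_conj' hz g⁻¹)
      have h1 := key g⁻¹ hz' (2 * k)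
      have e : (a⁻¹ * (g⁻¹⁻¹ * a * g⁻¹))⁻¹ = (g⁻¹)⁻¹ * (a⁻¹ * (g⁻¹ * a * g)) * g⁻¹ := by group
      rw [e] at h1
      have h2 := hquad _ (hmem g) hz g⁻¹
      have h3 := pow_le_pow_left' h2 k
      rw [← pow_two, ← pow_mul] at h3
      exact ⟨h3.trans h1, (pow_le_one' (inv_le_one'.mpr hz) k).trans ha1⟩

/-- the elements infinitesimal with respect to `u` -/
def Inf (htot : ∀ x y : N, x ≤ y ∨ y ≤ x) (u : N) (hu : ¬ u ≤ 1) : Subgroup N where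
  carrier := {a | ∀ k : ℕ, ¬ u ≤ a ^ k ∧ ¬ u ≤ (a⁻¹) ^ k}
  one_mem' := by
    intro k; simpa using hu
  mul_mem' := by
    have main : ∀ a b : N, (∀ k : ℕ, ¬ u ≤ a ^ k) → (∀ k : ℕ, ¬ u ≤ b ^ k) →
        ∀ k : ℕ, ¬ u ≤ (a * b) ^ k := by
      intro a b ha hb k h
      rcases htot a b with hab | hab
      · apply hb (2 * k)
        refine h.trans ?_
        rw [pow_mul, pow_two]
        exact pow_le_pow_left' (mul_le_mul' hab le_rfl) k
      · apply ha (2 * k)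
        refine h.trans ?_
        rw [pow_mul, pow_two]
        exact pow_le_pow_left' (mul_le_mul' le_rfl hab) k
    intro a b ha hb k
    refine ⟨main a b (fun k => (ha k).1) (fun k => (hb k).1) k, ?_⟩
    rw [mul_inv_rev]
    exact main b⁻¹ a⁻¹ (fun k => (hb k).2) (fun k => (ha k).2) k
  inv_mem' := by
    intro a ha k
    exact ⟨(ha k).2, by simpa using (ha k).1⟩

theorem mem_Inf {htot : ∀ x y : N, x ≤ y ∨ y ≤ x} {u : N} {hu : ¬ u ≤ 1} {a : N} :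
    a ∈ Inf htot u hu ↔ ∀ k : ℕ, ¬ u ≤ a ^ k ∧ ¬ u ≤ (a⁻¹) ^ k := Iff.rfl

theorem lin_inv_le {N : Type*} [Group N] [Preorder N] [MulLeftMono N] [MulRightMono N]
    {x y : N} (h : x ≤ y) : y⁻¹ ≤ x⁻¹ := inv_le_inv_iff.mpr h

theorem Inf_normal [hnil : Group.IsNilpotent N] (htot : ∀ x y : N, x ≤ y ∨ y ≤ x) (u : N)
    (hu : ¬ u ≤ 1) : (Inf htot u hu).Normal where
  conj_mem := by
    obtain ⟨n, hn⟩ := hnil
    have hu1 : 1 ≤ u := (htot u 1).resolve_left hu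
    -- u ≤ (g⁻¹ u g)²
    have hq : ∀ g : N, u ≤ (g⁻¹ * u * g) * (g⁻¹ * u * g) := by
      intro g
      have h1 := (thmW htot n (g⁻¹ * u * g) (by rw [hn]; exact Subgroup.mem_top _)
        (one_le_conj' hu1 g) g⁻¹ 1).1
      rw [pow_one] at h1
      have h2 := mul_le_mul' (le_refl (g⁻¹ * u * g)) h1
      have e : g⁻¹ * u * g * ((g⁻¹ * u * g)⁻¹ * ((g⁻¹)⁻¹ * (g⁻¹ * u * g) * g⁻¹)) = u := by group
      rwa [e] at h2
    have main : ∀ a g : N, (∀ k : ℕ, ¬ u ≤ a ^ k) → ∀ k : ℕ, ¬ u ≤ (g * a * g⁻¹) ^ k := by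
      intro a g ha k h
      have e : (g * a * g⁻¹) ^ k = g * a ^ k * g⁻¹ := by rw [conj_pow]
      rw [e] at h
      have h1 : g⁻¹ * u * g ≤ a ^ k := by
        have := mul_le_mul' (mul_le_mul' (le_refl g⁻¹) h) (le_refl g)
        have e2 : g⁻¹ * (g * a ^ k * g⁻¹) * g = a ^ k := by group
        rwa [e2] at this
      apply ha (k + k)
      rw [pow_add]
      exact (hq g).trans (mul_le_mul' h1 h1)
    intro a ha g k
    refine ⟨main a g (fun k => (ha k).1) k, ?_⟩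
    have e : (g * a * g⁻¹)⁻¹ = g * a⁻¹ * g⁻¹ := by group
    rw [e]
    exact main a⁻¹ g (fun k => (ha k).2) k

theorem central_of_le [hnil : Group.IsNilpotent N] (htot : ∀ x y : N, x ≤ y ∨ y ≤ x) (u : N)
    (hu : ¬ u ≤ 1) (x : N) (m : ℕ) (h1 : x ≤ u ^ m) (h2 : x⁻¹ ≤ u ^ m) (g : N) :
    x⁻¹ * (g⁻¹ * x * g) ∈ Inf htot u hu := by
  have hNorm := Inf_normal htot u hu
  obtain ⟨n, hn⟩ := hnil
  have hu1 : 1 ≤ u := (htot u 1).resolve_left hu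
  have main : ∀ x : N, 1 ≤ x → x ≤ u ^ m → ∀ g : N, x⁻¹ * (g⁻¹ * x * g) ∈ Inf htot u hu := by
    intro x hx hxm g
    have hW := thmW htot n x (by rw [hn]; exact Subgroup.mem_top _) hx g
    have aux : ∀ z : N, (∀ k : ℕ, z ^ k ≤ x) → ∀ k : ℕ, ¬ u ≤ z ^ k := by
      intro z hz k h
      have h3 := pow_le_pow_left' h (m + 1)
      rw [← pow_mul] at h3
      have h4 := (h3.trans (hz _)).trans hxm
      rw [pow_succ] at h4
      apply hu
      have h5 := mul_le_mul' (le_refl (u ^ m)⁻¹) h4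
      simpa using h5
    intro k
    exact ⟨aux _ (fun k => (hW k).1) k, aux _ (fun k => (hW k).2) k⟩
  rcases htot 1 x with hx | hx
  · exact main x hx h1 g
  · have h3 := main x⁻¹ (one_le_inv'.mpr hx) h2 g
    have h4 := hNorm.conj_mem _ ((Inf htot u hu).inv_mem h3) x⁻¹
    have e : x⁻¹ * (x⁻¹⁻¹ * (g⁻¹ * x⁻¹ * g))⁻¹ * x⁻¹⁻¹ = x⁻¹ * (g⁻¹ * x * g) := by group
    rwa [e] at h4

theorem Inf_isolated (htot : ∀ x y : N, x ≤ y ∨ y ≤ x) (u : N) (hu : ¬ u ≤ 1) (a : N) (m : ℕ)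
    (hm : 1 ≤ m) (h : a ^ m ∈ Inf htot u hu) : a ∈ Inf htot u hu := by
  have hu1 : 1 ≤ u := (htot u 1).resolve_left hu
  have aux : ∀ a : N, (∀ k : ℕ, ¬ u ≤ (a ^ m) ^ k) → ∀ k : ℕ, ¬ u ≤ a ^ k := by
    intro a ha k hk
    apply ha k
    have h3 := pow_le_pow_left' hk m
    rw [← pow_mul, mul_comm, pow_mul] at h3
    refine le_trans ?_ h3
    calc u = u ^ 1 := (pow_one u).symm
      _ ≤ u ^ m := pow_le_pow_right' hu1 hm
  intro k
  refine ⟨aux a (fun k => (h k).1) k, aux a⁻¹ (fun k => ?_) k⟩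
  rw [inv_pow]
  exact (h k).2

/-- Main theorem on nilpotent groups with a total bi-invariant preorder. -/
theorem thmB [hnil : Group.IsNilpotent N] (htot : ∀ x y : N, x ≤ y ∨ y ≤ x) (t s b c : N)
    (hu : ¬ ⁅b, c⁆ ≤ 1)
    (h1 : ¬ ⁅b, c⁆ * ⁅s, t⁆ ≤ 1) (h1' : ¬ ⁅b, c⁆ * ⁅s, t⁆⁻¹ ≤ 1)
    (h2 : ¬ ⁅b, c⁆ * ⁅s, c⁆ ≤ 1) (h2' : ¬ ⁅b, c⁆ * ⁅s, c⁆⁻¹ ≤ 1)
    (h3 : ¬ ⁅b, c⁆ * ⁅b, t * t * s⁻¹⁆ ≤ 1) (h3' : ¬ ⁅b, c⁆ * ⁅b, t * t * s⁻¹⁆⁻¹ ≤ 1)
    (h4 : ¬ ⁅b, c⁆ * ⁅b, t * c * t⁻¹⁆ ≤ 1) (h4' : ¬ ⁅b, c⁆ * ⁅b, t * c * t⁻¹⁆⁻¹ ≤ 1)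
    (h5 : ¬ ⁅b, c⁆ * (⁅b, t * c * t⁻¹⁆ * ⁅b, t * c * t⁻¹⁆)⁻¹ ≤ 1) : False := by
  set u := ⁅b, c⁆ with hu_def
  set v := ⁅b, t * c * t⁻¹⁆ with hv_def
  have hu1 : 1 ≤ u := (htot u 1).resolve_left hu
  let C := Inf htot u hu
  have hCn : C.Normal := Inf_normal htot u hu
  have hle : ∀ r : N, ¬ u * r ≤ 1 → r⁻¹ ≤ u := by
    intro r hr
    have h := (htot (u * r) 1).resolve_left hr
    have := mul_le_mul' h (le_refl r⁻¹)
    simpa using this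
  have hle' : ∀ r : N, ¬ u * r⁻¹ ≤ 1 → r ≤ u := by
    intro r hr
    have := hle r⁻¹ hr
    simpa using this
  have hcent : ∀ r : N, r ≤ u → r⁻¹ ≤ u → (QuotientGroup.mk' C r) ∈ Subgroup.center (N ⧸ C) := by
    intro r hr hr'
    rw [Subgroup.mem_center_iff]
    intro q
    obtain ⟨g, rfl⟩ := QuotientGroup.mk'_surjective C q
    have h := central_of_le htot u hu r 1 (by simpa using hr) (by simpa using hr') g
    have h' : (QuotientGroup.mk' C) (r⁻¹ * (g⁻¹ * r * g)) = 1 := by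
      rw [QuotientGroup.mk'_apply, QuotientGroup.eq_one_iff]; exact h
    simp only [map_mul, map_inv] at h'
    have h6 : (QuotientGroup.mk' C r)⁻¹ * ((QuotientGroup.mk' C g)⁻¹ * QuotientGroup.mk' C r *
      QuotientGroup.mk' C g) = 1 := h'
    have h7 : (QuotientGroup.mk' C g)⁻¹ * QuotientGroup.mk' C r * QuotientGroup.mk' C g =
        QuotientGroup.mk' C r := by
      have := inv_mul_eq_one.mp h6
      exact this.symm
    have h8 : QuotientGroup.mk' C r * QuotientGroup.mk' C g =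
        QuotientGroup.mk' C g * QuotientGroup.mk' C r := by
      have := congrArg (fun x => QuotientGroup.mk' C g * x) h7
      simpa [mul_assoc] using this
    exact h8.symm
  have hmap : ∀ x y : N, QuotientGroup.mk' C ⁅x, y⁆ = ⁅QuotientGroup.mk' C x, QuotientGroup.mk' C y⁆ := by
    intro x y; simp [commutatorElement_def]
  have e1 := hcent _ (hle' _ h1') (hle _ h1)
  have e2 := hcent _ (hle' _ h2') (hle _ h2)
  have e3 := hcent _ (hle' _ h3') (hle _ h3)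
  have e4 := hcent _ (hle' _ h4') (hle _ h4)
  have e5 := hcent u le_rfl ((inv_le_one'.mpr hu1).trans hu1)
  rw [hmap] at e1 e2 e3 e4
  rw [hu_def, hmap] at e5
  have : Group.IsNilpotent (N ⧸ C) := inferInstance
  have e3' : ⁅QuotientGroup.mk' C b, QuotientGroup.mk' C t * QuotientGroup.mk' C t *
      (QuotientGroup.mk' C s)⁻¹⁆ ∈ Subgroup.center (N ⧸ C) := by
    simpa only [map_mul, map_inv] using e3
  have e4' : ⁅QuotientGroup.mk' C b, QuotientGroup.mk' C t * QuotientGroup.mk' C c *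
      (QuotientGroup.mk' C t)⁻¹⁆ ∈ Subgroup.center (N ⧸ C) := by
    simpa only [map_mul, map_inv] using e4
  obtain ⟨m, hm⟩ := group_lemma (QuotientGroup.mk' C t) (QuotientGroup.mk' C s)
    (QuotientGroup.mk' C b) (QuotientGroup.mk' C c) e1 e2 e3' e5 e4'
  have hm' : QuotientGroup.mk' C ((u⁻¹ * v) ^ (2 ^ m)) = 1 := by
    rw [map_pow, map_mul, map_inv, hu_def, hv_def, hmap, hmap, map_mul, map_mul, map_inv]
    exact hm
  rw [QuotientGroup.mk'_apply, QuotientGroup.eq_one_iff] at hm'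
  have hκ := Inf_isolated htot u hu (u⁻¹ * v) (2 ^ m) (Nat.one_le_two_pow) hm'
  -- κ⁻² ≤ u
  have hk2 := (htot ((u⁻¹ * v)⁻¹ ^ 2) u).resolve_right (hκ 2).2
  apply h5
  set κ := u⁻¹ * v with hκ_def
  have hv : v = u * κ := by rw [hκ_def]; group
  have h7 : 1 ≤ κ * u * κ := by
    have := mul_le_mul' (mul_le_mul' (le_refl κ) hk2) (le_refl κ)
    have e : κ * (κ⁻¹) ^ 2 * κ = 1 := by rw [pow_two]; group
    rwa [e] at this
  have h8 : u ≤ v * v := by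
    rw [hv]
    have := mul_le_mul' (le_refl u) h7
    simpa [mul_assoc] using this
  have := mul_le_mul' h8 (le_refl (v * v)⁻¹)
  simpa using this

end

end Pool.Agent.H177R2.WA
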