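import Pool.Agent.H177R2.WA.Prime
import Pool.Agent.H177R2.WA.Pre

set_option autoImplicit false

open scoped commutatorElement

namespace Pool.Agent.H177R2.WA

section
variable {N : Type*} [Group N] [Lattice N] [MulLeftMono N] [MulRightMono N]

/-- the preorder on `N` given by a normal solid subgroup -/
@[reducible] def preM (M : Subgroup N) (hM : Solid M) : Preorder N where
  le x y := (y⁻¹ * x) ⊔ 1 ∈ M
  lt x y := (y⁻¹ * x) ⊔ 1 ∈ M ∧ ¬ ((x⁻¹ * y) ⊔ 1 ∈ M)
  lt_iff_le_not_ge _ _ := Iff.rfl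
  le_refl x := by simp [M.one_mem]
  le_trans x y z hxy hyz := by
    have h := M.mul_mem hyz hxy
    refine hM.conv _ _ h le_sup_right ?_
    refine LE.le.trans ?_ (mul_sup_one_le _ _)
    have e : z⁻¹ * y * (y⁻¹ * x) = z⁻¹ * x := by group
    rw [e]

theorem preM_left (M : Subgroup N) (hM : Solid M) : @MulLeftMono N _ (preM M hM).toLE :=
  @CovariantClass.mk N N (· * ·) (preM M hM).toLE.le (by
    intro g x y h
    change (y⁻¹ * x) ⊔ 1 ∈ M at h
    change ((g * y)⁻¹ * (g * x)) ⊔ 1 ∈ M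
    have e : (g * y)⁻¹ * (g * x) = y⁻¹ * x := by group
    rwa [e])

theorem preM_right (M : Subgroup N) (hM : Solid M) (hMn : M.Normal) :
    @MulRightMono N _ (preM M hM).toLE :=
  @CovariantClass.mk N N (Function.swap (· * ·)) (preM M hM).toLE.le (by
    intro g x y h
    change (y⁻¹ * x) ⊔ 1 ∈ M at h
    change ((y * g)⁻¹ * (x * g)) ⊔ 1 ∈ M
    have e : (y * g)⁻¹ * (x * g) = g⁻¹ * (y⁻¹ * x) * g := by group
    rw [e, conj_sup_one]
    have := hMn.conj_mem _ h g⁻¹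
    simpa using this)

/-- the word -/
def W (t s b c : N) : N :=
  ⁅b, c⁆ ⊓ (⁅b, c⁆ * ⁅s, t⁆) ⊓ (⁅b, c⁆ * ⁅s, t⁆⁻¹) ⊓ (⁅b, c⁆ * ⁅s, c⁆) ⊓ (⁅b, c⁆ * ⁅s, c⁆⁻¹)
    ⊓ (⁅b, c⁆ * ⁅b, t * t * s⁻¹⁆) ⊓ (⁅b, c⁆ * ⁅b, t * t * s⁻¹⁆⁻¹)
    ⊓ (⁅b, c⁆ * ⁅b, t * c * t⁻¹⁆) ⊓ (⁅b, c⁆ * ⁅b, t * c * t⁻¹⁆⁻¹)
    ⊓ (⁅b, c⁆ * (⁅b, t * c * t⁻¹⁆ * ⁅b, t * c * t⁻¹⁆)⁻¹)

/-- the identity `W ⊔ 1 = 1` holds in every nilpotent l-group -/
theorem identity [hnil : Group.IsNilpotent N] (t s b c : N) : W t s b c ⊔ 1 = 1 := by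
  by_contra hne
  obtain ⟨M, hMn, hM, hp, htot⟩ := exists_prime (W t s b c ⊔ 1) le_sup_right hne
  have key : ∀ x : N, W t s b c ≤ x → ¬ (preM M hM).le x 1 := by
    intro x hx h
    change (1⁻¹ * x) ⊔ 1 ∈ M at h
    rw [inv_one, one_mul] at h
    exact hp (hM.conv _ _ h le_sup_right (sup_le_sup_right hx 1))
  have htot' : ∀ x y : N, (preM M hM).le x y ∨ (preM M hM).le y x := by
    intro x y
    change (y⁻¹ * x) ⊔ 1 ∈ M ∨ (x⁻¹ * y) ⊔ 1 ∈ M
    have := htot (y⁻¹ * x)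
    have e : (y⁻¹ * x)⁻¹ = x⁻¹ * y := by group
    rwa [e] at this
  refine @thmB N _ (preM M hM) (preM_left M hM) (preM_right M hM hMn) hnil htot' t s b c
    (key _ ?_) (key _ ?_) (key _ ?_) (key _ ?_) (key _ ?_) (key _ ?_) (key _ ?_) (key _ ?_)
    (key _ ?_) (key _ ?_)
  · exact inf_le_left.trans (inf_le_left.trans (inf_le_left.trans (inf_le_left.trans
      (inf_le_left.trans (inf_le_left.trans (inf_le_left.trans (inf_le_left.trans inf_le_left)))))))
  · exact inf_le_left.trans (inf_le_left.trans (inf_le_left.trans (inf_le_left.trans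
      (inf_le_left.trans (inf_le_left.trans (inf_le_left.trans (inf_le_left.trans inf_le_right)))))))
  · exact inf_le_left.trans (inf_le_left.trans (inf_le_left.trans (inf_le_left.trans
      (inf_le_left.trans (inf_le_left.trans (inf_le_left.trans inf_le_right))))))
  · exact inf_le_left.trans (inf_le_left.trans (inf_le_left.trans (inf_le_left.trans
      (inf_le_left.trans (inf_le_left.trans inf_le_right)))))
  · exact inf_le_left.trans (inf_le_left.trans (inf_le_left.trans (inf_le_left.trans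
      (inf_le_left.trans inf_le_right))))
  · exact inf_le_left.trans (inf_le_left.trans (inf_le_left.trans (inf_le_left.trans
      inf_le_right)))
  · exact inf_le_left.trans (inf_le_left.trans (inf_le_left.trans inf_le_right))
  · exact inf_le_left.trans (inf_le_left.trans inf_le_right)
  · exact inf_le_left.trans inf_le_right
  · exact inf_le_right

end

end Pool.Agent.H177R2.WA
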