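import Pool.Agent.H177R2.WA.Model
import Pool.Agent.H177R2.WA.Identity

set_option autoImplicit false

open LaurentPolynomial
open scoped commutatorElement

namespace Pool.Agent.H177R2.WA

namespace GG

theorem comm_of_eq {G : Type*} [Group G] {a b z : G} (h : a * b = z * (b * a)) : ⁅a, b⁆ = z := by
  rw [commutatorElement_def]
  have : a * b * a⁻¹ * b⁻¹ = (a * b) * (b * a)⁻¹ := by group
  rw [this, h]; group

theorem comm_st : ⁅gs, gt⁆ = 1 := by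
  apply comm_of_eq
  ext1 <;> simp [gs, gt, om_zero_left]

theorem comm_sc : ⁅gs, gc⁆ = 1 := by
  apply comm_of_eq
  ext1 <;> simp [gs, gc, om_zero_left]

theorem comm_bc : ⁅gb, gc⁆ = gz := by
  apply comm_of_eq
  ext1 <;> simp [gb, gc, gz, om_zero_left, om]

theorem tts : gt * gt * gs⁻¹ = ⟨-1, 2, 0, 0, 0⟩ := by
  ext1 <;> simp [gt, gs, om_zero_left]

theorem tct : gt * gc * gt⁻¹ = ⟨0, 0, 0, T 1, 0⟩ := by
  ext1 <;> simp [gt, gc, om_zero_left]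

theorem comm_btts : ⁅gb, gt * gt * gs⁻¹⁆ = 1 := by
  rw [tts]
  apply comm_of_eq
  ext1 <;> simp [gb, om_zero_left, om_zero_right]

theorem comm_btct : ⁅gb, gt * gc * gt⁻¹⁆ = 1 := by
  rw [tct]
  apply comm_of_eq
  ext1
  · simp [gb]
  · simp [gb]
  · simp [gb]
  · simp [gb]
  · simp [gb, om_zero_left, om, ev1_T, evm_T]

theorem W_val : W gt gs gb gc = gz := by
  unfold W
  rw [comm_bc, comm_st, comm_sc, comm_btts, comm_btct]
  simp

theorem gz_pos : ¬ (gz ⊔ 1 = 1) := by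
  intro h
  have h1 : gz ≤ 1 := by rw [← h]; exact le_sup_left
  have h2 : (1 : GG) ≤ gz := by
    rw [one_le_iff]
    right
    unfold Pos
    simp [gz]
  have h3 : gz = 1 := le_antisymm h1 h2
  have := congrArg GG.m h3
  simp [gz] at this

end GG

/-- main theorem in the needed form -/
theorem not_HSP (I : Type) (H : I → Type) (i1 : ∀ i, Group (H i)) (i2 : ∀ i, Lattice (H i))
    (i3 : ∀ i, MulLeftMono (H i)) (i4 : ∀ i, MulRightMono (H i))
    (i5 : ∀ i, Group.IsNilpotent (H i))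
    (S : Set (∀ i, H i)) (f : (∀ i, H i) → GG)
    (h1 : 1 ∈ S) (hm : ∀ a ∈ S, ∀ b ∈ S, a * b ∈ S) (hi : ∀ a ∈ S, a⁻¹ ∈ S)
    (hinf : ∀ a ∈ S, ∀ b ∈ S, a ⊓ b ∈ S)
    (hf : ∀ a ∈ S, ∀ b ∈ S,
      f (a * b) = f a * f b ∧ f (a ⊔ b) = f a ⊔ f b ∧ f (a ⊓ b) = f a ⊓ f b)
    (hsurj : ∀ g : GG, ∃ a ∈ S, f a = g) : False := by
  have hf1 : f 1 = 1 := by
    have := (hf 1 h1 1 h1).1
    rw [mul_one] at this
    exact (mul_eq_left.mp this.symm)
  -- good pairs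
  let Good : (∀ i, H i) → GG → Prop := fun a x => a ∈ S ∧ f a = x
  have gmul : ∀ {a b x y}, Good a x → Good b y → Good (a * b) (x * y) := by
    rintro a b x y ⟨ha, rfl⟩ ⟨hb, rfl⟩
    exact ⟨hm a ha b hb, (hf a ha b hb).1⟩
  have ginf : ∀ {a b x y}, Good a x → Good b y → Good (a ⊓ b) (x ⊓ y) := by
    rintro a b x y ⟨ha, rfl⟩ ⟨hb, rfl⟩
    exact ⟨hinf a ha b hb, (hf a ha b hb).2.2⟩
  have ginv : ∀ {a x}, Good a x → Good a⁻¹ x⁻¹ := by
    rintro a x ⟨ha, rfl⟩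
    refine ⟨hi a ha, ?_⟩
    have := (hf a ha a⁻¹ (hi a ha)).1
    rw [mul_inv_cancel, hf1] at this
    exact (inv_eq_of_mul_eq_one_right this.symm).symm
  have gcomm : ∀ {a b x y}, Good a x → Good b y → Good ⁅a, b⁆ ⁅x, y⁆ := by
    intro a b x y ha hb
    rw [commutatorElement_def, commutatorElement_def]
    exact gmul (gmul (gmul ha hb) (ginv ha)) (ginv hb)
  obtain ⟨t, ht, ht'⟩ := hsurj GG.gt
  obtain ⟨s, hs, hs'⟩ := hsurj GG.gs
  obtain ⟨b, hb, hb'⟩ := hsurj GG.gb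
  obtain ⟨c, hc, hc'⟩ := hsurj GG.gc
  have Gt : Good t GG.gt := ⟨ht, ht'⟩
  have Gs : Good s GG.gs := ⟨hs, hs'⟩
  have Gb : Good b GG.gb := ⟨hb, hb'⟩
  have Gc : Good c GG.gc := ⟨hc, hc'⟩
  have hu := gcomm Gb Gc
  have hst := gcomm Gs Gt
  have hsc := gcomm Gs Gc
  have hbd := gcomm Gb (gmul (gmul Gt Gt) (ginv Gs))
  have hv := gcomm Gb (gmul (gmul Gt Gc) (ginv Gt))
  have hW : Good (W t s b c) (W GG.gt GG.gs GG.gb GG.gc) := by
    unfold W
    exact ginf (ginf (ginf (ginf (ginf (ginf (ginf (ginf (ginf hu (gmul hu hst))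
      (gmul hu (ginv hst))) (gmul hu hsc)) (gmul hu (ginv hsc))) (gmul hu hbd))
      (gmul hu (ginv hbd))) (gmul hu hv)) (gmul hu (ginv hv))) (gmul hu (ginv (gmul hv hv)))
  have hW1 : W t s b c ⊔ 1 = 1 := by
    funext i
    exact identity (t i) (s i) (b i) (c i)
  have h2 := (hf _ hW.1 1 h1).2.1
  rw [hW1, hf1, hW.2, GG.W_val] at h2
  exact GG.gz_pos h2.symm

end Pool.Agent.H177R2.WA
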