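import Mathlib

set_option autoImplicit false

/-! A lemma on nilpotent groups: if `s` commutes with `t` and `c`, and `b` commutes with `t²s⁻¹`, `c`,
`tct⁻¹`, all modulo the centre, then `([b,c]⁻¹[b,tct⁻¹])^(2^m) = 1` for some `m`. -/

open scoped commutatorElement

namespace Pool.Agent.H177R2.WA

section
variable {Q : Type*} [Group Q]

theorem central_comm {z : Q} (hz : z ∈ Subgroup.center Q) (x : Q) : x * z = z * x :=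
  Subgroup.mem_center_iff.mp hz x

/-- `a g a⁻¹ = [a,g] g` -/
theorem conj_eq (a g : Q) : a * g * a⁻¹ = ⁅a, g⁆ * g := by
  rw [commutatorElement_def]; group

theorem comm_of_conj {a x k : Q} (h : a * x * a⁻¹ = k * x) : ⁅a, x⁆ = k := by
  rw [commutatorElement_def, h]; group

theorem comm_mul {b x y : Q} (hy : ⁅b, y⁆ ∈ Subgroup.center Q) :
    ⁅b, x * y⁆ = ⁅b, x⁆ * ⁅b, y⁆ := by
  apply comm_of_conj
  have h1 : b * (x * y) * b⁻¹ = (b * x * b⁻¹) * (b * y * b⁻¹) := by group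
  rw [h1, conj_eq b x, conj_eq b y]
  have h2 := central_comm hy x
  calc ⁅b, x⁆ * x * (⁅b, y⁆ * y) = ⁅b, x⁆ * (x * ⁅b, y⁆) * y := by group
    _ = ⁅b, x⁆ * (⁅b, y⁆ * x) * y := by rw [h2]
    _ = ⁅b, x⁆ * ⁅b, y⁆ * (x * y) := by group

theorem comm_inv {b x : Q} (hx : ⁅b, x⁆ ∈ Subgroup.center Q) :
    ⁅b, x⁻¹⁆ = ⁅b, x⁆⁻¹ := by
  apply comm_of_conj
  have h1 : b * x⁻¹ * b⁻¹ = (b * x * b⁻¹)⁻¹ := by group
  rw [h1, conj_eq b x, mul_inv_rev]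
  exact central_comm ((Subgroup.center Q).inv_mem hx) x⁻¹

theorem comm_conj {a g x : Q} (hg : ⁅a, g⁆ ∈ Subgroup.center Q) (hx : ⁅a, x⁆ ∈ Subgroup.center Q) :
    ⁅a, g * x * g⁻¹⁆ = ⁅a, x⁆ := by
  apply comm_of_conj
  have h1 : a * (g * x * g⁻¹) * a⁻¹ = (a * g * a⁻¹) * (a * x * a⁻¹) * (a * g * a⁻¹)⁻¹ := by group
  rw [h1, conj_eq a g, conj_eq a x]
  set γ := ⁅a, g⁆
  set κ := ⁅a, x⁆
  have e1 : g * κ = κ * g := central_comm hx g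
  have e2 : γ * κ = κ * γ := central_comm hx γ
  have e3 : (κ * g * x * g⁻¹) * γ = γ * (κ * g * x * g⁻¹) := central_comm hg _
  calc γ * g * (κ * x) * (γ * g)⁻¹ = γ * (g * κ) * x * g⁻¹ * γ⁻¹ := by group
    _ = γ * (κ * g * x * g⁻¹) * γ⁻¹ := by rw [e1]; group
    _ = (κ * g * x * g⁻¹) * γ * γ⁻¹ := by rw [e3]
    _ = κ * (g * x * g⁻¹) := by group

theorem comm_central_mul {b z x : Q} (hz : z ∈ Subgroup.center Q) : ⁅b, z * x⁆ = ⁅b, x⁆ := by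
  apply comm_of_conj
  have e := central_comm hz b
  calc b * (z * x) * b⁻¹ = (b * z) * x * b⁻¹ := by group
    _ = z * (b * x * b⁻¹) := by rw [e]; group
    _ = z * (⁅b, x⁆ * x) := by rw [conj_eq]
    _ = ⁅b, x⁆ * (z * x) := by
      have e' := central_comm hz ⁅b, x⁆
      calc z * (⁅b, x⁆ * x) = (z * ⁅b, x⁆) * x := by group
        _ = (⁅b, x⁆ * z) * x := by rw [e']
        _ = _ := by group

/-- the set of elements under consideration -/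
def XX (t s b : Q) : Set Q :=
  {x | ⁅s, x⁆ ∈ Subgroup.center Q ∧ ⁅b, x⁆ ∈ Subgroup.center Q ∧ ⁅b, t * x * t⁻¹⁆ ∈ Subgroup.center Q}

theorem XX_twist {t s b x : Q} (_ : ⁅s, t⁆ ∈ Subgroup.center Q)
    (h3 : ⁅b, t * t * s⁻¹⁆ ∈ Subgroup.center Q) (hx : x ∈ XX t s b) :
    ⁅b, t * (t * x * t⁻¹) * t⁻¹⁆ = ⁅b, x⁆ := by
  obtain ⟨hsx, hbx, -⟩ := hx
  have e1 : t * (t * x * t⁻¹) * t⁻¹ = (t * t * s⁻¹) * (s * x * s⁻¹) * (t * t * s⁻¹)⁻¹ := by group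
  have e2 : (t * t * s⁻¹) * (s * x * s⁻¹) * (t * t * s⁻¹)⁻¹ =
      ⁅s, x⁆ * ((t * t * s⁻¹) * x * (t * t * s⁻¹)⁻¹) := by
    rw [conj_eq s x]
    have e := central_comm hsx (t * t * s⁻¹)
    calc (t * t * s⁻¹) * (⁅s, x⁆ * x) * (t * t * s⁻¹)⁻¹
        = ((t * t * s⁻¹) * ⁅s, x⁆) * x * (t * t * s⁻¹)⁻¹ := by group
      _ = (⁅s, x⁆ * (t * t * s⁻¹)) * x * (t * t * s⁻¹)⁻¹ := by rw [e]
      _ = _ := by group
  rw [e1, e2, comm_central_mul hsx, comm_conj h3 hbx]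

theorem XX_conj {t s b x : Q} (h1 : ⁅s, t⁆ ∈ Subgroup.center Q)
    (h3 : ⁅b, t * t * s⁻¹⁆ ∈ Subgroup.center Q) (hx : x ∈ XX t s b) :
    t * x * t⁻¹ ∈ XX t s b := by
  refine ⟨?_, hx.2.2, ?_⟩
  · rw [comm_conj h1 hx.1]; exact hx.1
  · rw [XX_twist h1 h3 hx]; exact hx.2.1

theorem XX_inv {t s b x : Q} (hx : x ∈ XX t s b) : x⁻¹ ∈ XX t s b := by
  obtain ⟨h1, h2, h3⟩ := hx
  refine ⟨?_, ?_, ?_⟩
  · rw [comm_inv h1]; exact (Subgroup.center Q).inv_mem h1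
  · rw [comm_inv h2]; exact (Subgroup.center Q).inv_mem h2
  · have : t * x⁻¹ * t⁻¹ = (t * x * t⁻¹)⁻¹ := by group
    rw [this, comm_inv h3]; exact (Subgroup.center Q).inv_mem h3

theorem XX_mul {t s b x y : Q} (hx : x ∈ XX t s b) (hy : y ∈ XX t s b) : x * y ∈ XX t s b := by
  obtain ⟨h1, h2, h3⟩ := hx
  obtain ⟨g1, g2, g3⟩ := hy
  refine ⟨?_, ?_, ?_⟩
  · rw [comm_mul g1]; exact (Subgroup.center Q).mul_mem h1 g1
  · rw [comm_mul g2]; exact (Subgroup.center Q).mul_mem h2 g2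
  · have : t * (x * y) * t⁻¹ = (t * x * t⁻¹) * (t * y * t⁻¹) := by group
    rw [this, comm_mul g3]; exact (Subgroup.center Q).mul_mem h3 g3

theorem main_aux {t s b : Q} (h1 : ⁅s, t⁆ ∈ Subgroup.center Q)
    (h3 : ⁅b, t * t * s⁻¹⁆ ∈ Subgroup.center Q) :
    ∀ n : ℕ, ∀ y ∈ Subgroup.upperCentralSeries Q n, y ∈ XX t s b →
      ⁅b, t * y * t⁻¹⁆ = ⁅b, y⁆⁻¹ → ∃ m : ℕ, ⁅b, y⁆ ^ (2 ^ m) = 1 := by
  intro n
  induction n with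
  | zero =>
    intro y hy _ _
    rw [Subgroup.upperCentralSeries_zero, Subgroup.mem_bot] at hy
    subst hy
    exact ⟨0, by simp⟩
  | succ n ih =>
    intro y hy hX hty
    have hy' : y⁻¹ * (t * y * t⁻¹) ∈ Subgroup.upperCentralSeries Q n := by
      have := (Subgroup.mem_upperCentralSeries_succ_iff.mp (Subgroup.inv_mem _ hy)) t
      simpa [commutatorElement_def, mul_assoc] using this
    have hX' : y⁻¹ * (t * y * t⁻¹) ∈ XX t s b := XX_mul (XX_inv hX) (XX_conj h1 h3 hX)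
    have hX1 := XX_conj h1 h3 hX
    have e1 : ⁅b, y⁻¹ * (t * y * t⁻¹)⁆ = (⁅b, y⁆ ^ 2)⁻¹ := by
      rw [comm_mul hX1.2.1, comm_inv hX.2.1, hty, pow_two, mul_inv_rev]
    have e2 : ⁅b, t * (y⁻¹ * (t * y * t⁻¹)) * t⁻¹⁆ = ⁅b, y⁆ ^ 2 := by
      have : t * (y⁻¹ * (t * y * t⁻¹)) * t⁻¹ = (t * y * t⁻¹)⁻¹ * (t * (t * y * t⁻¹) * t⁻¹) := by
        group
      rw [this, comm_mul (by rw [XX_twist h1 h3 hX]; exact hX.2.1), comm_inv hX1.2.1,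
        XX_twist h1 h3 hX, hty, pow_two, inv_inv]
    obtain ⟨m, hm⟩ := ih _ hy' hX' (by rw [e1, e2, inv_inv])
    refine ⟨m + 1, ?_⟩
    rw [e1, inv_pow, inv_eq_one, ← pow_mul] at hm
    rw [pow_succ', hm]

theorem group_lemma [hQ : Group.IsNilpotent Q] (t s b c : Q)
    (h1 : ⁅s, t⁆ ∈ Subgroup.center Q) (h2 : ⁅s, c⁆ ∈ Subgroup.center Q)
    (h3 : ⁅b, t * t * s⁻¹⁆ ∈ Subgroup.center Q) (hu : ⁅b, c⁆ ∈ Subgroup.center Q)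
    (hv : ⁅b, t * c * t⁻¹⁆ ∈ Subgroup.center Q) :
    ∃ m : ℕ, (⁅b, c⁆⁻¹ * ⁅b, t * c * t⁻¹⁆) ^ (2 ^ m) = 1 := by
  obtain ⟨n, hn⟩ := hQ
  have hX : c ∈ XX t s b := ⟨h2, hu, hv⟩
  have hX1 := XX_conj h1 h3 hX
  have hX' : c⁻¹ * (t * c * t⁻¹) ∈ XX t s b := XX_mul (XX_inv hX) hX1
  have e1 : ⁅b, c⁻¹ * (t * c * t⁻¹)⁆ = ⁅b, c⁆⁻¹ * ⁅b, t * c * t⁻¹⁆ := by
    rw [comm_mul hX1.2.1, comm_inv hX.2.1]
  have e2 : ⁅b, t * (c⁻¹ * (t * c * t⁻¹)) * t⁻¹⁆ = ⁅b, t * c * t⁻¹⁆⁻¹ * ⁅b, c⁆ := by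
    have : t * (c⁻¹ * (t * c * t⁻¹)) * t⁻¹ = (t * c * t⁻¹)⁻¹ * (t * (t * c * t⁻¹) * t⁻¹) := by
      group
    rw [this, comm_mul (by rw [XX_twist h1 h3 hX]; exact hX.2.1), comm_inv hX1.2.1,
      XX_twist h1 h3 hX]
  obtain ⟨m, hm⟩ := main_aux h1 h3 n (c⁻¹ * (t * c * t⁻¹)) (by rw [hn]; exact Subgroup.mem_top _)
    hX' (by rw [e1, e2]; group)
  exact ⟨m, by rw [← e1]; exact hm⟩

end

end Pool.Agent.H177R2.WA
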