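import Mathlib

set_option autoImplicit false

/-! Non-commutative lattice-ordered groups: relative polars, representability of nilpotent l-groups,
normal primes avoiding a given element. -/

namespace Pool.Agent.H177R2.WA

section LG

variable {N : Type*} [Group N] [Lattice N] [MulLeftMono N] [MulRightMono N]

/-- Riesz-type inequality -/
theorem inf_mul_le {e p q : N} (he : 1 ≤ e) (hp : 1 ≤ p) (hq : 1 ≤ q) :
    e ⊓ (p * q) ≤ (e ⊓ p) * (e ⊓ q) := by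
  rw [mul_inf, inf_mul, inf_mul]
  refine le_inf (le_inf ?_ ?_) (le_inf ?_ inf_le_right)
  · exact inf_le_left.trans (le_mul_of_one_le_left' he)
  · exact inf_le_left.trans (le_mul_of_one_le_left' hp)
  · exact inf_le_left.trans (le_mul_of_one_le_right' hq)

/-- `M` is a convex l-subgroup (only the part we need) -/
structure Solid (M : Subgroup N) : Prop where
  conv : ∀ x y : N, x ∈ M → 1 ≤ y → y ≤ x → y ∈ M
  sup : ∀ x : N, x ∈ M → x ⊔ 1 ∈ M

theorem mul_sup_one_le (x y : N) : (x * y) ⊔ 1 ≤ (x ⊔ 1) * (y ⊔ 1) :=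
  sup_le (mul_le_mul' le_sup_left le_sup_left) (one_le_mul le_sup_right le_sup_right)

/-- relative polar of `e ≥ 1` modulo `M` -/
def Pol (M : Subgroup N) (hM : Solid M) (e : N) (he : 1 ≤ e) : Subgroup N where
  carrier := {x | e ⊓ (x ⊔ 1) ∈ M ∧ e ⊓ (x⁻¹ ⊔ 1) ∈ M}
  one_mem' := by
    simp [inf_eq_right.mpr he, M.one_mem]
  mul_mem' := by
    rintro x y ⟨hx, hx'⟩ ⟨hy, hy'⟩
    constructor
    · refine hM.conv _ _ (M.mul_mem hx hy) (le_inf he le_sup_right) ?_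
      exact (inf_le_inf_left e (mul_sup_one_le x y)).trans
        (inf_mul_le he le_sup_right le_sup_right)
    · rw [mul_inv_rev]
      refine hM.conv _ _ (M.mul_mem hy' hx') (le_inf he le_sup_right) ?_
      exact (inf_le_inf_left e (mul_sup_one_le y⁻¹ x⁻¹)).trans
        (inf_mul_le he le_sup_right le_sup_right)
  inv_mem' := by
    rintro x ⟨hx, hx'⟩
    exact ⟨hx', by simpa using hx⟩

theorem mem_Pol {M : Subgroup N} {hM : Solid M} {e : N} {he : 1 ≤ e} {x : N} :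
    x ∈ Pol M hM e he ↔ e ⊓ (x ⊔ 1) ∈ M ∧ e ⊓ (x⁻¹ ⊔ 1) ∈ M := Iff.rfl

theorem mem_Pol_of_one_le {M : Subgroup N} {hM : Solid M} {e : N} {he : 1 ≤ e} {x : N}
    (hx : 1 ≤ x) : x ∈ Pol M hM e he ↔ e ⊓ x ∈ M := by
  rw [mem_Pol]
  have h1 : x⁻¹ ⊔ 1 = 1 := sup_eq_right.mpr (inv_le_one'.mpr hx)
  rw [h1, sup_eq_left.mpr hx, inf_eq_right.mpr he]
  simp [M.one_mem]

omit [MulLeftMono N] [MulRightMono N] in
theorem solid_bot : Solid (⊥ : Subgroup N) where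
  conv := by
    intro x y hx h1 h2
    rw [Subgroup.mem_bot] at *
    subst hx
    exact le_antisymm h2 h1
  sup := by
    intro x hx
    rw [Subgroup.mem_bot] at *
    subst hx
    simp

/-- if all forward conjugates of `x` lie in the subgroup `H` of a nilpotent group, so does `x` -/
theorem mem_of_conj_mem {G : Type*} [Group G] (H : Subgroup G) (g : G) :
    ∀ n : ℕ, ∀ x ∈ Subgroup.upperCentralSeries G n,
      (∀ k : ℕ, 1 ≤ k → (g ^ k)⁻¹ * x * g ^ k ∈ H) → x ∈ H := by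
  intro n
  induction n with
  | zero =>
    intro x hx _
    rw [Subgroup.upperCentralSeries_zero, Subgroup.mem_bot] at hx
    rw [hx]; exact H.one_mem
  | succ n ih =>
    intro x hx h
    have h1 : x⁻¹ * (g⁻¹ * x * g) ∈ Subgroup.upperCentralSeries G n := by
      have := (Subgroup.mem_upperCentralSeries_succ_iff.mp (Subgroup.inv_mem _ hx)) g⁻¹
      simpa [commutatorElement_def, mul_assoc] using this
    have h2 : x⁻¹ * (g⁻¹ * x * g) ∈ H := by
      refine ih _ h1 ?_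
      intro k hk
      have e1 : (g ^ k)⁻¹ * (x⁻¹ * (g⁻¹ * x * g)) * g ^ k =
          ((g ^ k)⁻¹ * x * g ^ k)⁻¹ * ((g ^ (k + 1))⁻¹ * x * g ^ (k + 1)) := by
        rw [pow_succ']
        group
      rw [e1]
      exact H.mul_mem (H.inv_mem (h k hk)) (h (k + 1) (by omega))
    have h3 := h 1 le_rfl
    rw [pow_one] at h3
    have : x = (g⁻¹ * x * g) * (x⁻¹ * (g⁻¹ * x * g))⁻¹ := by group
    rw [this]
    exact H.mul_mem h3 (H.inv_mem h2)

theorem conj_sup_one (a h : N) : (h⁻¹ * a * h) ⊔ 1 = h⁻¹ * (a ⊔ 1) * h := by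
  rw [mul_sup, sup_mul]; simp

theorem conj_inf (a b h : N) : (h⁻¹ * a * h) ⊓ (h⁻¹ * b * h) = h⁻¹ * (a ⊓ b) * h := by
  rw [mul_inf, inf_mul]

theorem one_le_conj {a : N} (ha : 1 ≤ a) (h : N) : 1 ≤ h⁻¹ * a * h := by
  have := mul_le_mul' (mul_le_mul' (le_refl h⁻¹) ha) (le_refl h)
  simpa using this

theorem orth_aux (d x y : N) (hd1 : 1 ≤ d) (hx : d ≤ x ⊔ 1) (hy : d ≤ y ⊔ 1) :
    d ≤ (x * y) ⊔ 1 := by
  -- d is orthogonal to x⁻¹ ⊔ 1
  have hpn : (x ⊔ 1) ⊓ (x⁻¹ ⊔ 1) = 1 := by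
    have h1 : x * (x⁻¹ ⊔ 1) = x ⊔ 1 := by rw [mul_sup]; simp [sup_comm]
    have h2 : (x ⊔ 1) ⊓ (x⁻¹ ⊔ 1) = (x ⊓ 1) * (x⁻¹ ⊔ 1) := by
      rw [inf_mul, h1, one_mul]
    rw [h2]
    have : (x⁻¹ ⊔ 1) = (x ⊓ 1)⁻¹ := by
      rw [inv_inf]; simp
    rw [this]; simp
  have hdn : d ⊓ (x⁻¹ ⊔ 1) = 1 :=
    le_antisymm ((inf_le_inf_right _ hx).trans_eq hpn) (le_inf hd1 le_sup_right)
  have h3 : d ≤ (x⁻¹ ⊔ 1) * ((x * y) ⊔ 1) := by
    rw [sup_mul, mul_sup, mul_sup]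
    refine hy.trans (sup_le ?_ ?_)
    · refine le_sup_of_le_left (le_sup_of_le_left ?_)
      simp
    · refine le_sup_of_le_right (le_sup_of_le_right ?_)
      simp
  have h4 : d ≤ d ⊓ ((x⁻¹ ⊔ 1) * ((x * y) ⊔ 1)) := le_inf le_rfl h3
  have h5 := h4.trans (inf_mul_le hd1 le_sup_right le_sup_right)
  rw [hdn, one_mul] at h5
  exact h5.trans inf_le_right

theorem pos_inf_neg (x : N) : (x ⊔ 1) ⊓ (x⁻¹ ⊔ 1) = 1 := by
  have h1 : x * (x⁻¹ ⊔ 1) = x ⊔ 1 := by rw [mul_sup]; simp [sup_comm]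
  have h2 : (x ⊔ 1) ⊓ (x⁻¹ ⊔ 1) = (x ⊓ 1) * (x⁻¹ ⊔ 1) := by
    rw [inf_mul, h1, one_mul]
  rw [h2]
  have : (x⁻¹ ⊔ 1) = (x ⊓ 1)⁻¹ := by
    rw [inv_inf]; simp
  rw [this]; simp

/-- nilpotent l-groups are representable: `a⁺` is orthogonal to all conjugates of `a⁻` -/
theorem rep_aux : ∀ n : ℕ, ∀ a ∈ Subgroup.upperCentralSeries N n, ∀ (_ : ∃ m, Subgroup.upperCentralSeries N m = ⊤) (g : N),
    (a ⊔ 1) ⊓ (g⁻¹ * (a⁻¹ ⊔ 1) * g) = 1 := by
  intro n
  induction n with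
  | zero =>
    intro a ha _ g
    rw [Subgroup.upperCentralSeries_zero, Subgroup.mem_bot] at ha
    subst ha
    simp
  | succ n ih =>
    intro a ha hnil g
    set b := g⁻¹ * a * g with hb
    have hbneg : g⁻¹ * (a⁻¹ ⊔ 1) * g = b⁻¹ ⊔ 1 := by
      rw [← conj_sup_one, hb]; congr 1; group
    rw [hbneg]
    set z := a⁻¹ * (g⁻¹ * a * g) with hz
    have hzmem : z ∈ Subgroup.upperCentralSeries N n := by
      have := (Subgroup.mem_upperCentralSeries_succ_iff.mp (Subgroup.inv_mem _ ha)) g⁻¹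
      simpa [hz, commutatorElement_def, mul_assoc] using this
    set e := (a ⊔ 1) ⊓ (b⁻¹ ⊔ 1) with he
    have he1 : 1 ≤ e := le_inf le_sup_right le_sup_right
    -- e ≤ z⁻ 
    have hez : e ≤ z⁻¹ ⊔ 1 := by
      have : z⁻¹ = b⁻¹ * a := by rw [hz, hb]; group
      rw [this]
      exact orth_aux e b⁻¹ a he1 inf_le_right inf_le_left
    -- e is orthogonal to conjugates of z⁺
    have hzh : ∀ h : N, e ⊓ (h⁻¹ * (z ⊔ 1) * h) = 1 := by
      intro h
      have h1 := ih z hzmem hnil h⁻¹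
      rw [inv_inv] at h1
      have h2 : (z⁻¹ ⊔ 1) ⊓ (h⁻¹ * (z ⊔ 1) * h) = 1 := by
        have h3 : h⁻¹ * ((z ⊔ 1) ⊓ (h * (z⁻¹ ⊔ 1) * h⁻¹)) * h = 1 := by
          rw [h1]; group
        rw [← conj_inf] at h3
        have h4 : h⁻¹ * (h * (z⁻¹ ⊔ 1) * h⁻¹) * h = z⁻¹ ⊔ 1 := by group
        rw [h4, inf_comm] at h3
        exact h3
      exact le_antisymm ((inf_le_inf_right _ hez).trans_eq h2)
        (le_inf he1 (one_le_conj le_sup_right h))
    -- polar of e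
    let H := Pol (⊥ : Subgroup N) solid_bot e he1
    have hHz : ∀ h : N, h⁻¹ * (z ⊔ 1) * h ∈ H := by
      intro h
      rw [mem_Pol_of_one_le (one_le_conj le_sup_right h), Subgroup.mem_bot]
      exact hzh h
    have hHb : b ⊔ 1 ∈ H := by
      rw [mem_Pol_of_one_le le_sup_right, Subgroup.mem_bot]
      exact le_antisymm ((inf_le_inf_right _ (inf_le_right : e ≤ b⁻¹ ⊔ 1)).trans_eq
        (by rw [inf_comm]; exact pos_inf_neg b)) (le_inf he1 le_sup_right)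
    have hHa : ∀ k : ℕ, 1 ≤ k → ((g ^ k)⁻¹ * a * g ^ k) ⊔ 1 ∈ H := by
      intro k hk
      induction k, hk using Nat.le_induction with
      | base => simpa [hb] using hHb
      | succ k hk ihk =>
        have e1 : (g ^ (k + 1))⁻¹ * a * g ^ (k + 1) =
            ((g ^ k)⁻¹ * a * g ^ k) * ((g ^ k)⁻¹ * z * g ^ k) := by
          rw [hz, pow_succ']; group
        rw [e1, mem_Pol_of_one_le le_sup_right, Subgroup.mem_bot]
        have h6 := H.mul_mem ihk (hHz (g ^ k))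
        rw [← conj_sup_one] at h6
        rw [mem_Pol_of_one_le (one_le_mul le_sup_right le_sup_right), Subgroup.mem_bot] at h6
        refine le_antisymm (LE.le.trans_eq ?_ h6) (le_inf he1 le_sup_right)
        exact inf_le_inf_left _ (mul_sup_one_le _ _)
    have hHp : a ⊔ 1 ∈ H := by
      obtain ⟨m, hm⟩ := hnil
      refine mem_of_conj_mem H g m (a ⊔ 1) (by rw [hm]; exact Subgroup.mem_top _) ?_
      intro k hk
      rw [← conj_sup_one]
      exact hHa k hk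
    rw [mem_Pol_of_one_le le_sup_right, Subgroup.mem_bot] at hHp
    have : e ⊓ (a ⊔ 1) = e := inf_eq_left.mpr inf_le_left
    rw [this] at hHp
    exact hHp

theorem rep [hN : Group.IsNilpotent N] (a g : N) : (a ⊔ 1) ⊓ (g⁻¹ * (a⁻¹ ⊔ 1) * g) = 1 := by
  obtain ⟨m, hm⟩ := hN
  exact rep_aux m a (by rw [hm]; exact Subgroup.mem_top _) ⟨m, hm⟩ g

end LG

end Pool.Agent.H177R2.WA
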