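import Pool.Agent.H177R2.WA.Cone

set_option autoImplicit false

open LaurentPolynomial

namespace Pool.Agent.H177R2.WA

/-- Laurent polynomials over `ℤ` -/
abbrev Lam := LaurentPolynomial ℤ

/-- evaluation at `1` -/
noncomputable def ev1 : Lam →+* ℤ := LaurentPolynomial.eval₂ (RingHom.id ℤ) 1
/-- evaluation at `-1` -/
noncomputable def evm : Lam →+* ℤ := LaurentPolynomial.eval₂ (RingHom.id ℤ) (-1)

theorem ev1_T (n : ℤ) : ev1 (T n) = 1 := by
  rw [ev1, LaurentPolynomial.eval₂_T]; simp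

theorem evm_T (n : ℤ) : evm (T n) = (((-1 : ℤˣ) ^ n : ℤˣ) : ℤ) := by
  rw [evm, LaurentPolynomial.eval₂_T]

/-- the invariant bilinear form -/
noncomputable def om (f g : Lam) : ℤ := ev1 f * ev1 g + evm f * evm g

theorem om_inv (k j : ℤ) (f g : Lam) : om (T (j + 2 * k) * f) (T j * g) = om f g := by
  unfold om
  rw [map_mul, map_mul, map_mul, map_mul, ev1_T, ev1_T, evm_T, evm_T]
  have h : (((-1 : ℤˣ) ^ (j + 2 * k) : ℤˣ) : ℤ) * (((-1 : ℤˣ) ^ j : ℤˣ) : ℤ) = 1 := by
    rw [← Units.val_mul, ← zpow_add]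
    have : j + 2 * k + j = 2 * (j + k) := by ring
    rw [this, zpow_mul]
    simp
  linear_combination (evm f * evm g) * h

/-- the unit `1 + X` of the power series ring -/
noncomputable def U : (PowerSeries ℤ)ˣ :=
  (PowerSeries.isUnit_iff_constantCoeff.mpr
    (show IsUnit (PowerSeries.constantCoeff (1 + PowerSeries.X : PowerSeries ℤ)) by simp)).unit

theorem U_val : (U : PowerSeries ℤ) = 1 + PowerSeries.X := IsUnit.unit_spec _

/-- expansion at `1` -/
noncomputable def phi : Lam →+* PowerSeries ℤ := LaurentPolynomial.eval₂ PowerSeries.C U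

theorem constCoeff_phi_T (n : ℤ) : PowerSeries.constantCoeff (phi (T n)) = 1 := by
  rw [phi, LaurentPolynomial.eval₂_T]
  have h1 : Units.map (PowerSeries.constantCoeff (R := ℤ)).toMonoidHom U = 1 := by
    ext
    simp [U_val]
  have h2 : PowerSeries.constantCoeff ((U ^ n : (PowerSeries ℤ)ˣ) : PowerSeries ℤ) =
      ((Units.map (PowerSeries.constantCoeff (R := ℤ)).toMonoidHom (U ^ n) : ℤˣ) : ℤ) := rfl
  rw [h2, map_zpow, h1]
  simp

theorem phi_injective {f : Lam} (hf : phi f = 0) : f = 0 := by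
  obtain ⟨n, p, hp⟩ := LaurentPolynomial.exists_T_pow f
  have h1 : phi (Polynomial.toLaurent p) = 0 := by rw [hp, map_mul, hf, zero_mul]
  rw [phi, LaurentPolynomial.eval₂_toLaurent, U_val] at h1
  have h2 : Polynomial.eval₂ PowerSeries.C (1 + PowerSeries.X : PowerSeries ℤ) p =
      Polynomial.coeToPowerSeries.ringHom (p.comp (1 + Polynomial.X)) := by
    rw [Polynomial.comp, Polynomial.hom_eval₂]
    congr 1
    · ext; simp
    · simp
  rw [h2] at h1
  have h3 : p.comp (1 + Polynomial.X) = 0 := by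
    have : Polynomial.coeToPowerSeries.ringHom (p.comp (1 + Polynomial.X)) =
      Polynomial.coeToPowerSeries.ringHom 0 := by rw [h1, map_zero]
    exact Polynomial.coe_injective ℤ (by simpa using this)
  have h4 : p = 0 := by
    have h5 : (p.comp (1 + Polynomial.X)).comp (Polynomial.X - 1) = p := by
      rw [Polynomial.comp_assoc]
      simp
    rw [← h5, h3, Polynomial.zero_comp]
  rw [h4, map_zero] at hp
  have h6 : f = (f * T n) * T (-n) := by
    rw [mul_assoc, ← T_add]; simp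
  rw [h6, ← hp, zero_mul]

/-- positivity of Laurent polynomials -/
def PosL (f : Lam) : Prop := PosS (phi f)

theorem PosL_zero : ¬ PosL 0 := by
  unfold PosL; rw [map_zero]; exact PosS_zero

theorem PosL_add {f g : Lam} (hf : PosL f) (hg : PosL g) : PosL (f + g) := by
  unfold PosL at *; rw [map_add]; exact PosS_add hf hg

theorem PosL_tri (f : Lam) : f = 0 ∨ PosL f ∨ PosL (-f) := by
  unfold PosL
  rw [map_neg]
  rcases PosS_tri (phi f) with h | h
  · exact Or.inl (phi_injective h)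
  · exact Or.inr h

theorem PosL_T {f : Lam} (hf : PosL f) (n : ℤ) : PosL (T n * f) := by
  unfold PosL at *; rw [map_mul]; exact PosS_mul hf (constCoeff_phi_T n)

theorem PosL_two {f : Lam} (hf : PosL f) (n : ℤ) : PosL (f + f - T n * f) := by
  unfold PosL at *
  have e : phi (f + f - T n * f) = (2 - phi (T n)) * phi f := by
    rw [map_sub, map_add, map_mul]; ring
  rw [e]
  refine PosS_mul hf ?_
  rw [map_sub, constCoeff_phi_T]
  have : PowerSeries.constantCoeff (2 : PowerSeries ℤ) = 2 := map_ofNat _ 2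
  rw [this]; norm_num

/-- the underlying set of the group -/
@[ext] structure GG where
  k : ℤ
  j : ℤ
  f : Lam
  g : Lam
  m : ℤ

namespace GG

noncomputable instance : Mul GG := ⟨fun a b =>
  ⟨a.k + b.k, a.j + b.j, a.f + T (a.j + 2 * a.k) * b.f, a.g + T a.j * b.g,
    a.m + b.m + om a.f (T a.j * b.g)⟩⟩

noncomputable instance : One GG := ⟨⟨0, 0, 0, 0, 0⟩⟩

noncomputable instance : Inv GG := ⟨fun a =>
  ⟨-a.k, -a.j, -(T (-(a.j + 2 * a.k)) * a.f), -(T (-a.j) * a.g), -a.m + om a.f a.g⟩⟩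

@[simp] theorem mul_k (a b : GG) : (a * b).k = a.k + b.k := rfl
@[simp] theorem mul_j (a b : GG) : (a * b).j = a.j + b.j := rfl
@[simp] theorem mul_f (a b : GG) : (a * b).f = a.f + T (a.j + 2 * a.k) * b.f := rfl
@[simp] theorem mul_g (a b : GG) : (a * b).g = a.g + T a.j * b.g := rfl
@[simp] theorem mul_m (a b : GG) : (a * b).m = a.m + b.m + om a.f (T a.j * b.g) := rfl
@[simp] theorem one_k : (1 : GG).k = 0 := rfl
@[simp] theorem one_j : (1 : GG).j = 0 := rfl
@[simp] theorem one_f : (1 : GG).f = 0 := rfl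
@[simp] theorem one_g : (1 : GG).g = 0 := rfl
@[simp] theorem one_m : (1 : GG).m = 0 := rfl
@[simp] theorem inv_k (a : GG) : (a⁻¹).k = -a.k := rfl
@[simp] theorem inv_j (a : GG) : (a⁻¹).j = -a.j := rfl
@[simp] theorem inv_f (a : GG) : (a⁻¹).f = -(T (-(a.j + 2 * a.k)) * a.f) := rfl
@[simp] theorem inv_g (a : GG) : (a⁻¹).g = -(T (-a.j) * a.g) := rfl
@[simp] theorem inv_m (a : GG) : (a⁻¹).m = -a.m + om a.f a.g := rfl

theorem om_add_left (f f' g : Lam) : om (f + f') g = om f g + om f' g := by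
  unfold om; rw [map_add, map_add]; ring
theorem om_add_right (f g g' : Lam) : om f (g + g') = om f g + om f g' := by
  unfold om; rw [map_add, map_add]; ring
theorem om_neg_left (f g : Lam) : om (-f) g = - om f g := by
  unfold om; rw [map_neg, map_neg]; ring
theorem om_zero_left (g : Lam) : om 0 g = 0 := by
  unfold om; rw [map_zero, map_zero]; ring
theorem om_zero_right (f : Lam) : om f 0 = 0 := by
  unfold om; rw [map_zero, map_zero]; ring

noncomputable instance : Group GG := Group.ofLeftAxioms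
  (by
    intro a b c
    ext1
    · simp [add_assoc]
    · simp [add_assoc]
    · have e : (T (a.j + b.j + 2 * (a.k + b.k)) : Lam) = T (a.j + 2 * a.k) * T (b.j + 2 * b.k) := by
        rw [← T_add]; congr 1; ring
      simp only [mul_f, mul_j, mul_k, e]; ring
    · simp only [mul_g, mul_j, T_add]; ring
    · simp only [mul_m, mul_f, mul_j, mul_g]
      have e : T a.j * (b.g + T b.j * c.g) = T a.j * b.g + T (a.j + b.j) * c.g := by
        rw [T_add]; ring
      rw [e, om_add_left, om_add_right]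
      have e2 : om (T (a.j + 2 * a.k) * b.f) (T (a.j + b.j) * c.g) = om b.f (T b.j * c.g) := by
        rw [T_add a.j b.j, mul_assoc, om_inv]
      rw [e2]; ring)
  (by
    intro a
    ext1
    · simp
    · simp
    · simp
    · simp
    · simp [om_zero_left])
  (by
    intro a
    ext1
    · simp
    · simp
    · simp only [mul_f, inv_f, inv_j, inv_k, one_f]
      have : -a.j + 2 * -a.k = -(a.j + 2 * a.k) := by ring
      rw [this]; ring
    · simp only [mul_g, inv_g, inv_j, one_g]; ring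
    · simp only [mul_m, inv_m, inv_f, inv_j, one_m]
      have e : om (-(T (-(a.j + 2 * a.k)) * a.f)) (T (-a.j) * a.g) = - om a.f a.g := by
        rw [om_neg_left]
        have : -(a.j + 2 * a.k) = -a.j + 2 * (-a.k) := by ring
        rw [this, om_inv]
      rw [e]; ring)

/-- strict positivity on `GG` -/
def Pos (a : GG) : Prop :=
  0 < a.k ∨ (a.k = 0 ∧ (0 < a.j ∨ (a.j = 0 ∧ (PosL a.f ∨ (a.f = 0 ∧ (PosL a.g ∨
    (a.g = 0 ∧ 0 < a.m)))))))

theorem conj_rel {a b c : GG} (h : c * b = a * c) :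
    b.k = a.k ∧ b.j = a.j ∧ (a.k = 0 → a.j = 0 → (b.f = T (-(c.j + 2 * c.k)) * a.f ∧
      b.g = T (-c.j) * a.g ∧ (a.f = 0 → a.g = 0 → b.m = a.m))) := by
  have hk := congrArg GG.k h
  have hj := congrArg GG.j h
  have hf := congrArg GG.f h
  have hg := congrArg GG.g h
  have hm := congrArg GG.m h
  simp only [mul_k] at hk
  simp only [mul_j] at hj
  refine ⟨by omega, by omega, ?_⟩
  intro hk0 hj0
  simp only [mul_f, hk0, hj0] at hf
  simp only [mul_g, hj0] at hg
  simp only [mul_m, hj0] at hm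
  have hf' : T (c.j + 2 * c.k) * b.f = a.f := by
    have : c.f + T (c.j + 2 * c.k) * b.f = a.f + c.f := by
      rw [hf]; simp
    linear_combination this
  have hg' : T c.j * b.g = a.g := by
    have : c.g + T c.j * b.g = a.g + c.g := by
      rw [hg]; simp
    linear_combination this
  refine ⟨?_, ?_, ?_⟩
  · rw [← hf', ← mul_assoc, ← T_add]; simp
  · rw [← hg', ← mul_assoc, ← T_add]; simp
  · intro hf0 hg0
    rw [hg', hg0, hf0, om_zero_right, om_zero_left] at hm
    omega

theorem Pos_conj_rel {a b c : GG} (h : c * b = a * c) (ha : Pos a) : Pos b := by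
  obtain ⟨hk, hj, hrest⟩ := conj_rel h
  unfold Pos at *
  rw [hk, hj]
  rcases ha with ha | ⟨hk0, ha⟩
  · exact Or.inl ha
  right
  refine ⟨hk0, ?_⟩
  rcases ha with ha | ⟨hj0, ha⟩
  · exact Or.inl ha
  right
  refine ⟨hj0, ?_⟩
  obtain ⟨hf, hg, hm⟩ := hrest hk0 hj0
  rw [hf, hg]
  rcases ha with ha | ⟨hf0, ha⟩
  · exact Or.inl (PosL_T ha _)
  right
  refine ⟨by rw [hf0, mul_zero], ?_⟩
  rcases ha with ha | ⟨hg0, ha⟩
  · exact Or.inl (PosL_T ha _)
  right
  refine ⟨by rw [hg0, mul_zero], ?_⟩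
  rw [hm hf0 hg0]; exact ha

theorem Pos_mul {a b : GG} (ha : Pos a) (hb : Pos b) : Pos (a * b) := by
  unfold Pos at *
  simp only [mul_k, mul_j, mul_f, mul_g, mul_m]
  rcases ha with ha | ⟨hk, ha⟩
  · rcases hb with hb | ⟨hk', hb⟩
    · left; omega
    · left; omega
  rcases hb with hb | ⟨hk', hb⟩
  · left; omega
  right
  refine ⟨by omega, ?_⟩
  rcases ha with ha | ⟨hj, ha⟩
  · rcases hb with hb | ⟨hj', hb⟩
    · left; omega
    · left; omega
  rcases hb with hb | ⟨hj', hb⟩
  · left; omega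
  right
  refine ⟨by omega, ?_⟩
  have e1 : (T (a.j + 2 * a.k) : Lam) = 1 := by rw [hj, hk]; simp
  have e2 : (T a.j : Lam) = 1 := by rw [hj]; simp
  rw [e1, e2, one_mul, one_mul]
  rcases ha with ha | ⟨hf, ha⟩
  · rcases hb with hb | ⟨hf', hb⟩
    · left; exact PosL_add ha hb
    · left; rw [hf', add_zero]; exact ha
  rcases hb with hb | ⟨hf', hb⟩
  · left; rw [hf, zero_add]; exact hb
  right
  refine ⟨by rw [hf, hf', add_zero], ?_⟩
  rcases ha with ha | ⟨hg, ha⟩
  · rcases hb with hb | ⟨hg', hb⟩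
    · left; exact PosL_add ha hb
    · left; rw [hg', add_zero]; exact ha
  rcases hb with hb | ⟨hg', hb⟩
  · left; rw [hg, zero_add]; exact hb
  right
  refine ⟨by rw [hg, hg', add_zero], ?_⟩
  rw [hf, om_zero_left]; omega

theorem Pos_tri (a : GG) : a = 1 ∨ Pos a ∨ Pos a⁻¹ := by
  unfold Pos
  simp only [inv_k, inv_j, inv_f, inv_g, inv_m]
  rcases lt_trichotomy a.k 0 with hk | hk | hk
  · right; right; left; omega
  swap
  · right; left; left; exact hk
  rcases lt_trichotomy a.j 0 with hj | hj | hj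
  · right; right; right; exact ⟨by omega, Or.inl (by omega)⟩
  swap
  · right; left; right; exact ⟨hk, Or.inl hj⟩
  have e1 : (T (-(a.j + 2 * a.k)) : Lam) = 1 := by rw [hj, hk]; simp
  have e2 : (T (-a.j) : Lam) = 1 := by rw [hj]; simp
  rw [e1, e2, one_mul, one_mul]
  rcases PosL_tri a.f with hf | hf | hf
  swap
  · right; left; right; exact ⟨hk, Or.inr ⟨hj, Or.inl hf⟩⟩
  swap
  · right; right; right; exact ⟨by omega, Or.inr ⟨by omega, Or.inl hf⟩⟩
  rcases PosL_tri a.g with hg | hg | hg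
  swap
  · right; left; right; exact ⟨hk, Or.inr ⟨hj, Or.inr ⟨hf, Or.inl hg⟩⟩⟩
  swap
  · right; right; right
    exact ⟨by omega, Or.inr ⟨by omega, Or.inr ⟨by rw [hf, neg_zero], Or.inl hg⟩⟩⟩
  rcases lt_trichotomy a.m 0 with hm | hm | hm
  · right; right; right
    refine ⟨by omega, Or.inr ⟨by omega, Or.inr ⟨by rw [hf, neg_zero], Or.inr
      ⟨by rw [hg, neg_zero], ?_⟩⟩⟩⟩
    rw [hf, om_zero_left]; omega
  · left
    ext1 <;> assumption
  · right; left; right
    exact ⟨hk, Or.inr ⟨hj, Or.inr ⟨hf, Or.inr ⟨hg, hm⟩⟩⟩⟩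

/-- the cone of `GG` -/
def cone : Cone GG where
  pos := Pos
  not_one := by
    unfold Pos
    simp [PosL_zero]
  mul _ _ := Pos_mul
  conj a g ha := Pos_conj_rel (a := a) (c := g) (by group) ha
  tri := Pos_tri

noncomputable instance : LinearOrder GG := cone.linearOrder
instance : MulLeftMono GG := cone.left
instance : MulRightMono GG := cone.right

theorem le_iff {a b : GG} : a ≤ b ↔ (a = b ∨ Pos (a⁻¹ * b)) := Iff.rfl

theorem one_le_iff {a : GG} : 1 ≤ a ↔ (1 = a ∨ Pos a) := by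
  rw [le_iff]; simp

/-- `GG` is weakly abelian -/
theorem weaklyAbelian (x y : GG) (hy : 1 ≤ y) : x⁻¹ * y * x ≤ y * y := by
  rw [one_le_iff] at hy
  rcases hy with rfl | hy
  · simp
  rw [le_iff]
  right
  set b := x⁻¹ * y * x with hb
  set w := b⁻¹ * (y * y) with hw
  have h1 : x * b = y * x := by rw [hb]; group
  have h2 : b * w = y * y := by rw [hw]; group
  obtain ⟨hk, hj, hrest⟩ := conj_rel h1
  have wk := congrArg GG.k h2
  have wj := congrArg GG.j h2
  have wf := congrArg GG.f h2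
  have wg := congrArg GG.g h2
  have wm := congrArg GG.m h2
  simp only [mul_k, mul_j, mul_f, mul_g, mul_m] at wk wj wf wg wm
  have wk' : w.k = y.k := by omega
  have wj' : w.j = y.j := by omega
  unfold Pos at hy ⊢
  rw [wk', wj']
  rcases hy with hy | ⟨hk0, hy⟩
  · exact Or.inl hy
  right
  refine ⟨hk0, ?_⟩
  rcases hy with hy | ⟨hj0, hy⟩
  · exact Or.inl hy
  right
  refine ⟨hj0, ?_⟩
  obtain ⟨hf, hg, hm⟩ := hrest hk0 hj0
  have e1 : (T (b.j + 2 * b.k) : Lam) = 1 := by rw [hj, hk, hj0, hk0]; simp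
  have e2 : (T b.j : Lam) = 1 := by rw [hj, hj0]; simp
  have e3 : (T (y.j + 2 * y.k) : Lam) = 1 := by rw [hj0, hk0]; simp
  have e4 : (T y.j : Lam) = 1 := by rw [hj0]; simp
  rw [e1, e3, one_mul, one_mul] at wf
  rw [e2, e4, one_mul, one_mul] at wg
  rw [e2, e4, one_mul, one_mul] at wm
  have wf' : w.f = y.f + y.f - T (-(x.j + 2 * x.k)) * y.f := by
    rw [← hf]; linear_combination wf
  have wg' : w.g = y.g + y.g - T (-x.j) * y.g := by
    rw [← hg]; linear_combination wg
  rcases hy with hy | ⟨hf0, hy⟩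
  · left; rw [wf']; exact PosL_two hy _
  right
  refine ⟨by rw [wf', hf0]; simp, ?_⟩
  rcases hy with hy | ⟨hg0, hy⟩
  · left; rw [wg']; exact PosL_two hy _
  right
  refine ⟨by rw [wg', hg0]; simp, ?_⟩
  have bm := hm hf0 hg0
  have bf : b.f = 0 := by rw [hf, hf0, mul_zero]
  rw [bf, om_zero_left, hf0, om_zero_left] at wm
  omega

/-- the four generators -/
noncomputable def gt : GG := ⟨0, 1, 0, 0, 0⟩
noncomputable def gs : GG := ⟨1, 0, 0, 0, 0⟩
noncomputable def gb : GG := ⟨0, 0, 1, 0, 0⟩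
noncomputable def gc : GG := ⟨0, 0, 0, 1, 0⟩
noncomputable def gz : GG := ⟨0, 0, 0, 0, 2⟩

end GG

end Pool.Agent.H177R2.WA
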