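import Pool.Agent.H177R2.WA.LGroup

set_option autoImplicit false

namespace Pool.Agent.H177R2.WA

section LG

variable {N : Type*} [Group N] [Lattice N] [MulLeftMono N] [MulRightMono N]

/-- intersection of the relative polars of all conjugates of `q` -/
def PolN (M : Subgroup N) (hM : Solid M) (q : N) (hq : 1 ≤ q) : Subgroup N :=
  ⨅ h : N, Pol M hM (h⁻¹ * q * h) (one_le_conj hq h)

theorem mem_PolN {M : Subgroup N} {hM : Solid M} {q : N} {hq : 1 ≤ q} {x : N} :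
    x ∈ PolN M hM q hq ↔ ∀ h : N, (h⁻¹ * q * h) ⊓ (x ⊔ 1) ∈ M ∧ (h⁻¹ * q * h) ⊓ (x⁻¹ ⊔ 1) ∈ M := by
  simp [PolN, Subgroup.mem_iInf, mem_Pol]

theorem mem_PolN_of_one_le {M : Subgroup N} {hM : Solid M} {q : N} {hq : 1 ≤ q} {x : N}
    (hx : 1 ≤ x) : x ∈ PolN M hM q hq ↔ ∀ h : N, (h⁻¹ * q * h) ⊓ x ∈ M := by
  simp only [PolN, Subgroup.mem_iInf]
  exact forall_congr' fun h => mem_Pol_of_one_le hx

theorem PolN_solid (M : Subgroup N) (hM : Solid M) (q : N) (hq : 1 ≤ q) :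
    Solid (PolN M hM q hq) where
  conv := by
    intro x y hx h1 h2
    rw [mem_PolN_of_one_le h1]
    rw [mem_PolN_of_one_le (h1.trans h2)] at hx
    intro h
    exact hM.conv _ _ (hx h) (le_inf (one_le_conj hq h) h1) (inf_le_inf_left _ h2)
  sup := by
    intro x hx
    rw [mem_PolN_of_one_le le_sup_right]
    rw [mem_PolN] at hx
    exact fun h => (hx h).1

theorem PolN_normal (M : Subgroup N) (hM : Solid M) (hMn : M.Normal) (q : N) (hq : 1 ≤ q) :
    (PolN M hM q hq).Normal where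
  conj_mem := by
    intro x hx k
    rw [mem_PolN] at hx ⊢
    intro h
    have key : ∀ y : N, (((h * k)⁻¹ * q * (h * k)) ⊓ (y ⊔ 1) ∈ M) →
        (h⁻¹ * q * h) ⊓ ((k * y * k⁻¹) ⊔ 1) ∈ M := by
      intro y hy
      have h1 := hMn.conj_mem _ hy k
      have h2 : k * (((h * k)⁻¹ * q * (h * k)) ⊓ (y ⊔ 1)) * k⁻¹ =
          (h⁻¹ * q * h) ⊓ ((k * y * k⁻¹) ⊔ 1) := by
        rw [mul_inf, inf_mul, mul_sup, sup_mul]
        congr 1
        · group
        · congr 1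
          group
      rwa [h2] at h1
    refine ⟨key x (hx (h * k)).1, ?_⟩
    have := key x⁻¹ (hx (h * k)).2
    have e : (k * x * k⁻¹)⁻¹ = k * x⁻¹ * k⁻¹ := by group
    rw [e]
    exact this

theorem le_PolN (M : Subgroup N) (hM : Solid M) (q : N) (hq : 1 ≤ q) :
    M ≤ PolN M hM q hq := by
  intro x hx
  rw [mem_PolN]
  intro h
  refine ⟨hM.conv _ _ (hM.sup _ hx) (le_inf (one_le_conj hq h) le_sup_right) inf_le_right,
    hM.conv _ _ (hM.sup _ (M.inv_mem hx)) (le_inf (one_le_conj hq h) le_sup_right) inf_le_right⟩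

theorem exists_prime [Group.IsNilpotent N] (p : N) (hp1 : 1 ≤ p) (hp : p ≠ 1) :
    ∃ M : Subgroup N, M.Normal ∧ Solid M ∧ p ∉ M ∧ ∀ a : N, a ⊔ 1 ∈ M ∨ a⁻¹ ⊔ 1 ∈ M := by
  classical
  obtain ⟨M, -, hmax⟩ := zorn_le_nonempty₀
    {M : Subgroup N | M.Normal ∧ Solid M ∧ p ∉ M} (by
      intro c hc hchain y hy
      have hne : c.Nonempty := ⟨y, hy⟩
      have hdir : DirectedOn (· ≤ ·) c := hchain.directedOn
      refine ⟨sSup c, ⟨?_, ?_, ?_⟩, fun z hz => le_sSup hz⟩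
      · constructor
        intro x hx g
        rw [Subgroup.mem_sSup_of_directedOn hne hdir] at hx ⊢
        obtain ⟨K, hK, hxK⟩ := hx
        exact ⟨K, hK, (hc hK).1.conj_mem x hxK g⟩
      · constructor
        · intro x y hx h1 h2
          rw [Subgroup.mem_sSup_of_directedOn hne hdir] at hx ⊢
          obtain ⟨K, hK, hxK⟩ := hx
          exact ⟨K, hK, (hc hK).2.1.conv x y hxK h1 h2⟩
        · intro x hx
          rw [Subgroup.mem_sSup_of_directedOn hne hdir] at hx ⊢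
          obtain ⟨K, hK, hxK⟩ := hx
          exact ⟨K, hK, (hc hK).2.1.sup x hxK⟩
      · rw [Subgroup.mem_sSup_of_directedOn hne hdir]
        rintro ⟨K, hK, hxK⟩
        exact (hc hK).2.2 hxK) ⊥ ⟨inferInstance, solid_bot, by simpa using hp⟩
  obtain ⟨⟨hMn, hMs, hpM⟩, hmax'⟩ := hmax
  refine ⟨M, hMn, hMs, hpM, ?_⟩
  intro a
  by_contra hcon
  push Not at hcon
  obtain ⟨ha, hna⟩ := hcon
  -- M₁ = polar of a⁻
  have hq : (1 : N) ≤ a⁻¹ ⊔ 1 := le_sup_right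
  have hp1M : p ∈ PolN M hMs (a⁻¹ ⊔ 1) hq := by
    by_contra hpn
    have h1 := hmax' (y := PolN M hMs (a⁻¹ ⊔ 1) hq)
      ⟨PolN_normal M hMs hMn _ hq, PolN_solid M hMs _ hq, hpn⟩ (le_PolN M hMs _ hq)
    apply ha
    apply h1
    rw [mem_PolN_of_one_le le_sup_right]
    intro h
    rw [inf_comm, rep a h]
    exact M.one_mem
  rw [mem_PolN_of_one_le hp1] at hp1M
  have hp2M : p ∈ PolN M hMs p hp1 := by
    by_contra hpn
    have h1 := hmax' (y := PolN M hMs p hp1)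
      ⟨PolN_normal M hMs hMn _ hp1, PolN_solid M hMs _ hp1, hpn⟩ (le_PolN M hMs _ hp1)
    apply hna
    apply h1
    rw [mem_PolN_of_one_le le_sup_right]
    intro h
    have h2 := hMn.conj_mem _ (hp1M h⁻¹) h⁻¹
    have h3 : h⁻¹ * ((h⁻¹)⁻¹ * (a⁻¹ ⊔ 1) * h⁻¹ ⊓ p) * (h⁻¹)⁻¹ =
        (h⁻¹ * p * h) ⊓ (a⁻¹ ⊔ 1) := by
      rw [mul_inf, inf_mul, inf_comm]
      congr 1
      · group
      · group
    rwa [h3] at h2
  rw [mem_PolN_of_one_le hp1] at hp2M
  have := hp2M 1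
  simp at this
  exact hpM this

end LG

end Pool.Agent.H177R2.WA
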